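import Pool.Agent.K.MP_cb6780_lc.C3

set_option autoImplicit false

theorem Pool.Agent.Results.MP_cb6780_lc.CubicUniform.result :
    ∃ κ : ℝ, 0 < κ ∧ ∀ (n c h : ℕ) (δ : ℝ), (c : ℝ) ≤ κ * n →
      (1 + 1 / 2 ^ (h + 1)) / 2 + (2 : ℝ) ^ (-(κ * n)) ≤ 2 ^ c * (1 - 2 * δ) →
      2 ^ c * (1 - 2 * δ) ≤ (1 + 1 / 2 ^ h) / 2 - (2 : ℝ) ^ (-(κ * n)) →
      |({f : (Fin (n + c) → ZMod 2) → ZMod 2 |
          (∃ p : MvPolynomial (Fin (n + c)) (ZMod 2), p.totalDegree ≤ 3 ∧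
            ∀ x, f x = MvPolynomial.eval x p) ∧ (hammingNorm f : ℝ) ≤ δ * 2 ^ (n + c)}.ncard : ℝ) /
        (2 ^ (c * (n + 1) + ∑ i ∈ Finset.range c, (1 + (n + i) + (n + i).choose 2)) /
            (∏ j ∈ Finset.range c, (1 - 1 / 2 ^ (j + 1) : ℝ)) *
          if h = 0 then 1 else
            2 ^ ((2 * h + 1) * n + 1) / (2 ^ (h ^ 2) * (if h = 1 then 7 else 1) *
              ∏ j ∈ Finset.range h, ((4 : ℝ) ^ (j + 1) - 1))) - 1| ≤ (2 : ℝ) ^ (-(n : ℝ) / 2) := by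
  obtain ⟨κ, h0, h1⟩ := Pool.Agent.P.MP_cb6780_lc.uni_main
  refine ⟨κ, h0, fun n c h δ a1 a2 a3 => ?_⟩
  have a4 := h1 n c h (1 - 2 * δ) a1 a2 a3
  rw [Pool.Agent.P.MP_cb6780_lc.count_eq]
  simpa only [Pool.Agent.P.MP_cb6780_lc.ps, Pool.Agent.P.MP_cb6780_lc.Kh, zero_add] using a4
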