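import Pool.Agent.K.MP_cb6780_lc.C4

set_option autoImplicit false

namespace Pool.Agent.Results.MP_cb6780_lc.DualStaircase

theorem result : ∃ θ : ℝ, 0 < θ ∧ ∃ m0 : ℕ, ∀ m w : ℕ, m0 ≤ m → Even w →
    (1 / 2 - θ) * (m : ℝ) ^ 2 ≤ w → 2 * w ≤ 2 ^ m →
    |({f : (Fin m → ZMod 2) → ZMod 2 | (∃ p : MvPolynomial (Fin m) (ZMod 2),
          p.totalDegree + 4 ≤ m ∧ ∀ x, f x = MvPolynomial.eval x p) ∧ hammingNorm f = w}.ncard : ℝ) /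
        (∑ c ∈ Finset.range (m + 1),
          2 * (∏ i ∈ Finset.range c, ((2 : ℝ) ^ m - 2 ^ i) / (2 ^ c - 2 ^ i)) * 2 ^ c *
            (2 ^ (m - c)).choose w / 2 ^ ∑ i ∈ Finset.range 4, (m - c).choose i) - 1| ≤
      (2 : ℝ) ^ (-(θ * m)) :=
  Pool.Agent.P.MP_cb6780_lc.dual_main

end Pool.Agent.Results.MP_cb6780_lc.DualStaircase
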