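import Pool.Agent.K.MP_cb6780_lc.C5

set_option autoImplicit false

theorem Pool.Agent.Results.MP_cb6780_lc.LocalLimit.result :
    ∃ C : ℝ, ∀ r m w : ℕ, 3 ≤ r → 1 ≤ m → 2 ^ ((m + r - 1) / r - 1) ∣ w →
      |({f : (Fin m → ZMod 2) → ZMod 2 |
            (∃ p : MvPolynomial (Fin m) (ZMod 2), p.totalDegree ≤ r ∧
              ∀ x, f x = MvPolynomial.eval x p) ∧ hammingNorm f = w}.ncard : ℝ) /
          2 ^ (∑ i ∈ Finset.range (r + 1), m.choose i) * Real.sqrt (2 ^ m) /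
            2 ^ ((m + r - 1) / r) -
        Real.exp (-((2 ^ m - 2 * w : ℝ) ^ 2 / 2 ^ (m + 1))) / Real.sqrt (2 * Real.pi)| ≤
      C * (2 : ℝ) ^ (-(m : ℝ) / 36) := by
  obtain ⟨C, hC⟩ := Pool.Agent.P.MP_cb6780_lc.local_main
  refine ⟨C, fun r m w hr hm hw => ?_⟩
  have h := hC r m w hr hm
  rwa [if_pos hw, if_pos hw] at h
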