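import Pool.Agent.K.MP_cb6780_lc.C2
import Pool.Agent.K.MP_cb6780_lc.C6

set_option autoImplicit false

theorem Pool.Agent.Results.MP_cb6780_lc.LogAsymptotic.result (r c : ℕ) (hr : 3 ≤ r) (δ : ℝ)
    (h1 : 1 / 2 ^ (c + 1) < 1 - 2 * δ) (h2 : 1 - 2 * δ ≤ 1 / 2 ^ c) :
    ∃ C : ℝ, ∀ m : ℕ, 1 ≤ m →
      |Real.logb 2 ({f : (Fin m → ZMod 2) → ZMod 2 |
          (∃ p : MvPolynomial (Fin m) (ZMod 2), p.totalDegree ≤ r ∧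
            ∀ x, f x = MvPolynomial.eval x p) ∧ (hammingNorm f : ℝ) ≤ δ * 2 ^ m}.ncard : ℝ) -
        c * m.choose (r - 1)| ≤ C * (m : ℝ) ^ (r - 2) := by
  obtain ⟨C, hC⟩ := Pool.Agent.P.MP_cb6780_lc.log_main hr c h1 h2
  exact ⟨C, fun m hm => by rw [Pool.Agent.P.MP_cb6780_lc.count_eq]; exact hC m hm⟩
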